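import Pool.Agent.Helpers29.DegE
import Pool.Agent.Helpers29.DgR

set_option autoImplicit false

namespace Pool.Agent.Results.MP_3d9fc2_ag.EveryField

open Pool.Agent.Helpers29.Deg

theorem result (K : Type) [Field K] :
    ∃ (F : Fin (12 + 1) → MvPolynomial (Fin (12 + 1)) K) (δ : ℕ → ℕ),
      IsRationalMap F 95 ∧ Dominant F ∧
      (∀ n, 1 ≤ n → ∀ e, IsIterateDegree F n e ↔ e = δ n) ∧
      ¬ ∃ (r : ℕ) (L : Fin r → ℕ → ℂ) (ι : ℕ → Fin r), (∀ i, IsLRS (L i)) ∧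
        ∀ n, 1 ≤ n → (δ n : ℂ) = L (ι n) n := by
  refine ⟨Fm M0 va0 vb0 95, Dn M0 va0 vb0,
    Fm_rational M0 va0 vb0 95 M0_sum va0_sum vb0_sum dom0 2 ne0 D1,
    Fm_dom M0 va0 vb0 95 (by norm_num) 2 va_ne M0_inj, ?_, ?_⟩
  · intro n _ e
    have hmain := isIterateDegree_main (K := K) M0 va0 vb0 95 M0_sum va0_sum vb0_sum dom0 2 ne0 n
    constructor
    · intro he
      exact degree_unique he hmain
    · rintro rfl
      exact hmain
  · have h := lrs_main _ (fun n => ((cj n : ℕ) : ℂ)) hB_main hC_main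
    intro h'
    apply h
    obtain ⟨r, L, ι, hL, hD⟩ := h'
    refine ⟨r, L, ι, hL, fun n hn => ?_⟩
    rw [← hD n hn, Dn_split]

end Pool.Agent.Results.MP_3d9fc2_ag.EveryField
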