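import Pool.Agent.Helpers29.DegE

set_option autoImplicit false

namespace Pool.Agent.Results.MP_3d9fc2_ag.NotFinitelyManyLRS

open Pool.Agent.Helpers29.Deg

theorem result (p : ℕ) [Fact p.Prime] (K : Type) [Field K] [Algebra (ZMod p) K]
    (t : K) (ht : Transcendental (ZMod p) t) :
    ∃ (F : Fin (4 + 1) → MvPolynomial (Fin (4 + 1)) K) (δ : ℕ → ℕ),
      IsRationalMap F 3 ∧ Dominant F ∧
      (∀ n, 1 ≤ n → ∀ e, IsIterateDegree F n e ↔ e = δ n) ∧
      ¬ ∃ (r : ℕ) (L : Fin r → ℕ → ℂ) (ι : ℕ → Fin r), (∀ i, IsLRS (L i)) ∧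
        ∀ n, 1 ≤ n → (δ n : ℂ) = L (ι n) n := by
  have hp : p.Prime := Fact.out
  have hnt : ∀ q : Polynomial (ZMod p), Polynomial.aeval t q = 0 → q = 0 := by
    intro q hq
    by_contra hne
    exact ht ⟨q, hne, hq⟩
  have h0 : t ≠ 0 := by
    intro h
    have := hnt Polynomial.X (by simpa using h)
    exact Polynomial.X_ne_zero this
  have h1 : 1 + t ≠ 0 := by
    intro h
    have := hnt (1 + Polynomial.X) (by simpa using h)
    have h2 := congrArg (fun q => Polynomial.coeff q 1) this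
    simp [Polynomial.coeff_one] at h2
  refine ⟨FF t, NN t, ⟨FF_hom t, FF_ncf t⟩, FF_dom t h0 h1, ?_, ?_⟩
  · intro n hn e
    have hmain : IsIterateDegree (N := 4) (FF t) n (NN t n) :=
      ⟨MvPolynomial.X 0 ^ (3 ^ n - NN t n), GG t n,
        pow_ne_zero _ (MvPolynomial.X_ne_zero 0), iter_eq t n hn,
        GG_hom t n hn, GG_ncf t (fun j => pow_ne_zero j h1) n⟩
    constructor
    · intro he
      exact degree_unique he hmain
    · rintro rfl
      exact hmain
  · refine not_lrs p hp.two_le (NN t) ?_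
    intro k n h1 h2
    have hZ := ZZ_eq p ht k n h1 h2
    have hn : 1 ≤ n := by omega
    have hlt := ZZ_lt t n hn
    unfold NN
    omega

end Pool.Agent.Results.MP_3d9fc2_ag.NotFinitelyManyLRS
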